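import Pool.Agent.H987.Y.StB

/-! Project Y of helper987, H1: the limit kernels (`S_hullA`). -/

set_option autoImplicit false

open scoped BigOperators InnerProductSpace Topology
open Filter MeasureTheory

namespace Pool.Agent.H332.Y987

open Pool.Agent.H987.Y

section ker

variable {ι : Type}

theorem ker_add {h h' : ℝ} {k k' : ι → ι → ℝ} (H : Ker h k) (H' : Ker h' k') :
    Ker (h + h') (fun x y => k x y + k' x y) where
  h0 := add_nonneg H.h0 H'.h0
  sy x y := by rw [H.sy x y, H'.sy x y]
  sm x := Summable.of_nonneg_of_le (fun _ => abs_nonneg _) (fun y => abs_add_le _ _)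
    ((H.sm x).add (H'.sm x))
  le x := by
    refine (Summable.tsum_le_tsum (fun y => abs_add_le (k x y) (k' x y))
      (Summable.of_nonneg_of_le (fun _ => abs_nonneg _) (fun y => abs_add_le _ _)
        ((H.sm x).add (H'.sm x))) ((H.sm x).add (H'.sm x))).trans ?_
    rw [(H.sm x).tsum_add (H'.sm x)]
    exact add_le_add (H.le x) (H'.le x)

theorem ker_zero : Ker (ι := ι) 0 (fun _ _ => 0) where
  h0 := le_rfl
  sy _ _ := rfl
  sm _ := by simp
  le _ := by simp

theorem ker_sum {s : Finset ℕ} {b : ℕ → ℝ} {k : ℕ → ι → ι → ℝ} (H : ∀ i, Ker (b i) (k i)) :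
    Ker (∑ i ∈ s, b i) (fun x y => ∑ i ∈ s, k i x y) := by
  classical
  induction s using Finset.induction_on with
  | empty => simpa using ker_zero
  | insert a s ha ih =>
    have := ker_add (H a) ih
    simpa [Finset.sum_insert ha] using this

theorem ker_abs_le {h : ℝ} {k : ι → ι → ℝ} (H : Ker h k) (x y : ι) : |k x y| ≤ h :=
  ((H.sm x).le_tsum y (fun _ _ => abs_nonneg _)).trans (H.le x)

theorem ker_summable {b : ℕ → ℝ} {k : ℕ → ι → ι → ℝ} (H : ∀ i, Ker (b i) (k i)) (hb : Summable b)
    (x y : ι) : Summable fun i => |k i x y| :=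
  Summable.of_nonneg_of_le (fun _ => abs_nonneg _) (fun i => ker_abs_le (H i) x y) hb

theorem ker_tsum {b : ℕ → ℝ} {k : ℕ → ι → ι → ℝ} (H : ∀ i, Ker (b i) (k i)) (hb : Summable b) :
    Ker (∑' i, b i) (fun x y => ∑' i, k i x y) := by
  have hp : ∀ x, Summable fun p : ℕ × ι => |k p.1 x p.2| := by
    intro x
    refine (summable_prod_of_nonneg (fun _ => abs_nonneg _)).2 ⟨fun i => (H i).sm x, ?_⟩
    exact Summable.of_nonneg_of_le (fun i => tsum_nonneg fun _ => abs_nonneg _)
      (fun i => (H i).le x) hb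
  have hle : ∀ x y, |∑' i, k i x y| ≤ ∑' i, |k i x y| := by
    intro x y
    have := norm_tsum_le_tsum_norm (f := fun i => k i x y) (by simpa using ker_summable H hb x y)
    simpa using this
  have hp' : ∀ x, Summable fun p : ι × ℕ => |k p.2 x p.1| := fun x =>
    (Equiv.prodComm ι ℕ).summable_iff.2 (hp x)
  have hs : ∀ x, Summable fun y => ∑' i, |k i x y| := fun x => (hp' x).prod
  refine ⟨tsum_nonneg fun i => (H i).h0, ?_, ?_, ?_⟩
  · intro x y
    exact tsum_congr fun i => (H i).sy x y
  · intro x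
    exact Summable.of_nonneg_of_le (fun _ => abs_nonneg _) (hle x) (hs x)
  · intro x
    refine (Summable.tsum_le_tsum (hle x) (Summable.of_nonneg_of_le (fun _ => abs_nonneg _) (hle x)
      (hs x)) (hs x)).trans ?_
    have e : ∑' y, ∑' i, |k i x y| = ∑' i, ∑' y, |k i x y| := by
      have := (hp x).tsum_comm (f := fun i y => |k i x y|)
      exact this
    rw [e]
    exact Summable.tsum_le_tsum (fun i => (H i).le x)
      (Summable.of_nonneg_of_le (fun i => tsum_nonneg fun _ => abs_nonneg _)
      (fun i => (H i).le x) hb) hb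

theorem ker_equiv {h : ℝ} {k : ι → ι → ℝ} (H : Ker h k) (e : ι ≃ ι) :
    Ker h (fun x y => k (e x) (e y)) where
  h0 := H.h0
  sy x y := H.sy _ _
  sm x := (e.summable_iff (f := fun y => |k (e x) y|)).2 (H.sm (e x))
  le x := by
    rw [e.tsum_eq (fun y => |k (e x) y|)]
    exact H.le (e x)

end ker

section net

variable {d : ℕ}

theorem ker_tr {h : ℝ} {k : Lt d → Lt d → ℝ} (H : Ker h k) (v : Lt d) :
    Ker h (fun x y => k (x + v) (y + v)) :=
  ker_equiv H (Equiv.addRight v)

theorem pQ_dvd (Q : ℕ → ℕ) {m n : ℕ} (h : m ≤ n) : pQ Q m ∣ pQ Q n :=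
  Finset.prod_dvd_prod_of_subset _ _ _ (Finset.range_mono h)

theorem hd_sub {Q : ℕ → ℕ} (u : Hu d Q) {m n : ℕ} (h : m ≤ n) :
    ∃ w : Lt d, hd n u = hd m u + (pQ Q m : ℤ) • w := by
  induction n, h using Nat.le_induction with
  | base => exact ⟨0, by simp⟩
  | succ n hmn ih =>
    obtain ⟨w, hw⟩ := ih
    obtain ⟨c, hc⟩ := pQ_dvd Q hmn
    refine ⟨w + (c : ℤ) • ph (u n), ?_⟩
    have : hd (n + 1) u = hd n u + (pQ Q n : ℤ) • ph (u n) := by
      unfold hd
      rw [Finset.sum_range_succ]
    rw [this, hw, hc]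
    push_cast
    rw [smul_add, smul_smul, add_assoc]

theorem net_per {N R : ℕ} {h : ℝ} {t : Lt d → Lt d → ℝ} (H : Net N R h t) {M : ℕ} (hM : N ∣ M)
    (x y v : Lt d) : t (x + (M : ℤ) • v) (y + (M : ℤ) • v) = t x y := by
  obtain ⟨c, rfl⟩ := hM
  have := H.per x y ((c : ℤ) • v)
  rw [smul_smul] at this
  simpa using this

theorem ph_meas (N : ℕ) : Measurable (ph : Ph d N → Lt d) := Measurable.of_discrete

theorem hd_meas {Q : ℕ → ℕ} (n : ℕ) : Measurable fun u : Hu d Q => hd n u := by
  unfold hd
  refine Finset.measurable_sum _ fun k _ => ?_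
  have h1 : Measurable fun u : Hu d Q => u k := measurable_pi_apply k
  have h2 : Measurable fun p : Ph d (Q k) => (pQ Q k : ℤ) • ph p := Measurable.of_discrete
  exact h2.comp h1

end net

/-- **H1 (the limit kernels).** -/
theorem hullA (h1 : S_free) : Pool.Agent.H987.Y.S_hullA := by
  intro d Q A b R hQ hA hb
  obtain ⟨hkf, hkn, hkt, -⟩ := h1 d
  -- the shifted kernels
  have hK : ∀ k (v : Lt d), Ker (b k) (fun x y => A k (x + v) (y + v)) := fun k v =>
    ker_tr (hA k).ker v
  have hT : ∀ u : Hu d Q, Ker (∑' k, b k) (tA A u) := fun u =>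
    ker_tsum (k := fun k x y => A k (x + hd (k + 1) u) (y + hd (k + 1) u))
      (fun k => hK k _) hb
  -- the terms with small index
  have hper : ∀ (u : Hu d Q) (n k : ℕ), k < n → ∀ x y : Lt d,
      A k (x + hd n u) (y + hd n u) = A k (x + hd (k + 1) u) (y + hd (k + 1) u) := by
    intro u n k hk x y
    obtain ⟨w, hw⟩ := hd_sub u (Nat.succ_le_of_lt hk)
    rw [hw, ← add_assoc, ← add_assoc]
    exact (hA k).per _ _ _
  -- the tail
  have htail : ∀ (u : Hu d Q) (n : ℕ) (x y : Lt d),
      tA A u x y - ∑ k ∈ Finset.range n, A k (x + hd n u) (y + hd n u) =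
        ∑' k, A (n + k) (x + hd (n + k + 1) u) (y + hd (n + k + 1) u) := by
    intro u n x y
    have hs : Summable fun k => A k (x + hd (k + 1) u) (y + hd (k + 1) u) :=
      (ker_summable (k := fun k x y => A k (x + hd (k + 1) u) (y + hd (k + 1) u))
        (fun k => hK k _) hb x y).of_abs
    have e := hs.sum_add_tsum_nat_add n
    have e2 : ∑ k ∈ Finset.range n, A k (x + hd n u) (y + hd n u) =
        ∑ k ∈ Finset.range n, A k (x + hd (k + 1) u) (y + hd (k + 1) u) :=
      Finset.sum_congr rfl fun k hk => hper u n k (Finset.mem_range.1 hk) x y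
    rw [e2]
    unfold tA
    rw [← e, add_sub_cancel_left]
    refine tsum_congr fun k => ?_
    rw [add_comm k n]
  have hKt : ∀ (u : Hu d Q) (n : ℕ), Ker (∑' k, b (n + k)) fun x y =>
      ∑' k, A (n + k) (x + hd (n + k + 1) u) (y + hd (n + k + 1) u) := by
    intro u n
    have hb' : Summable fun k => b (n + k) := by
      have := (summable_nat_add_iff n).2 hb
      simpa [add_comm] using this
    exact ker_tsum (k := fun k x y => A (n + k) (x + hd (n + k + 1) u) (y + hd (n + k + 1) u))
      (fun k => hK (n + k) _) hb'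
  -- finite networks
  have hfin : ∀ (n : ℕ) (v : Lt d), ∃ R', Net (pQ Q n) R' (∑ k ∈ Finset.range n, b k)
      (fun x y => ∑ k ∈ Finset.range n, A k (x + v) (y + v)) := by
    intro n v
    refine ⟨∑ k ∈ Finset.range n, R k, ker_sum (fun k => hK k v), ?_, ?_⟩
    · intro x y w
      refine Finset.sum_congr rfl fun k hk => ?_
      have := net_per (hA k) (pQ_dvd Q (Nat.succ_le_of_lt (Finset.mem_range.1 hk))) (x + v) (y + v) w
      rw [← this]
      congr 1 <;> abel
    · intro x y hxy i
      obtain ⟨k, hk, hne⟩ := Finset.exists_ne_zero_of_sum_ne_zero hxy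
      have := (hA k).rng _ _ hne i
      simp only [Pi.add_apply, add_sub_add_right_eq_sub] at this
      refine this.trans ?_
      exact_mod_cast Finset.single_le_sum (f := R) (fun _ _ => Nat.zero_le _) hk
  refine ⟨hT, fun u => ker_add hkf (hT u), ?_, ?_, ?_, ?_⟩
  · intro x y
    have hm : ∀ k, Measurable fun u : Hu d Q => A k (x + hd (k + 1) u) (y + hd (k + 1) u) := by
      intro k
      have h2 : Measurable fun p : Lt d => A k (x + p) (y + p) := Measurable.of_discrete
      exact h2.comp (hd_meas (k + 1))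
    have hlim : ∀ u : Hu d Q, Tendsto (fun n => ∑ k ∈ Finset.range n,
        A k (x + hd (k + 1) u) (y + hd (k + 1) u)) atTop (𝓝 (tA A u x y)) := by
      intro u
      have hs : Summable fun k => A k (x + hd (k + 1) u) (y + hd (k + 1) u) :=
        (ker_summable (k := fun k x y => A k (x + hd (k + 1) u) (y + hd (k + 1) u))
          (fun k => hK k _) hb x y).of_abs
      exact hs.hasSum.tendsto_sum_nat
    refine measurable_of_tendsto_metrizable (f := fun n (u : Hu d Q) => ∑ k ∈ Finset.range n,
        A k (x + hd (k + 1) u) (y + hd (k + 1) u)) (fun n => ?_) (tendsto_pi_nhds.2 hlim)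
    exact Finset.measurable_sum _ fun k _ => hm k
  · intro n
    obtain ⟨R', H⟩ := hfin n 0
    simp only [add_zero] at H
    refine ⟨1 + R', ker_add hkf H.ker, ?_, ?_⟩
    · intro x y w
      have := H.per x y w
      unfold tn
      rw [hkt, this]
    · intro x y hxy i
      unfold tn at hxy
      by_cases h0 : kf d x y = 0
      · rw [h0, zero_add] at hxy
        have := H.rng x y hxy i
        push_cast
        linarith
      · have := hkn.rng x y h0 i
        push_cast at this ⊢
        have : (0 : ℤ) ≤ R' := Int.natCast_nonneg _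
        linarith
  · intro u n
    have := hKt u n
    convert this using 3 with x y
    rw [← htail u n]
    unfold tn
    rw [hkt]
    ring
  · intro u n
    obtain ⟨R', H⟩ := hfin n (hd n u)
    refine ⟨R', _, H, ?_⟩
    have := hKt u n
    convert this using 3 with x y
    rw [← htail u n]

end Pool.Agent.H332.Y987
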